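import Pool.Agent.Helper36.JJ.Defs
import Pool.Agent.Helper44.Pin.QJ1

/-!
# A globally rigid graph on at least four vertices is 3-connected (JJ-9)

If at most two vertices separate the graph, then one side is reflected in the line through these
two vertices.
-/

namespace Pool.Agent.Helper36.JJ

open Finset Module
open Pool.Agent.Helper36.Pin

variable {V : Type} [Fintype V] [DecidableEq V]

/-- the reflection in the line through `(s0, s1)` with normal vector `(n0, n1)` -/
noncomputable def reflL (s0 s1 n0 n1 : ℝ) (x : Fin 2 → ℝ) : Fin 2 → ℝ :=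
  ![x 0 - 2 * ((x 0 - s0) * n0 + (x 1 - s1) * n1) / (n0 ^ 2 + n1 ^ 2) * n0,
    x 1 - 2 * ((x 0 - s0) * n0 + (x 1 - s1) * n1) / (n0 ^ 2 + n1 ^ 2) * n1]

theorem dsq_reflL {s0 s1 n0 n1 : ℝ} (hn : n0 ^ 2 + n1 ^ 2 ≠ 0) (x y : Fin 2 → ℝ) :
    dsq (reflL s0 s1 n0 n1 x) (reflL s0 s1 n0 n1 y) = dsq x y := by
  simp only [dsq, reflL, Matrix.cons_val_zero, Matrix.cons_val_one]
  field_simp
  ring

theorem reflL_fix {s0 s1 n0 n1 : ℝ} (x : Fin 2 → ℝ)
    (h : (x 0 - s0) * n0 + (x 1 - s1) * n1 = 0) : reflL s0 s1 n0 n1 x = x := by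
  funext i
  fin_cases i <;> simp [reflL, h]

theorem dsq_reflL_right {s0 s1 n0 n1 : ℝ} (hn : n0 ^ 2 + n1 ^ 2 ≠ 0) (x y : Fin 2 → ℝ) :
    dsq x (reflL s0 s1 n0 n1 y) = dsq x y +
      4 * ((x 0 - s0) * n0 + (x 1 - s1) * n1) * ((y 0 - s0) * n0 + (y 1 - s1) * n1) /
        (n0 ^ 2 + n1 ^ 2) := by
  simp only [dsq, reflL, Matrix.cons_val_zero, Matrix.cons_val_one]
  field_simp
  ring

theorem threeConn_of_globallyRigid (G : SimpleGraph V) (h4 : 4 ≤ Fintype.card V)
    (h : GloballyRigid G) : ThreeConn G Finset.univ := by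
  classical
  refine ⟨by simpa using h4, ?_⟩
  intro T _ hT
  set S : Set V := ((Finset.univ \ T : Finset V) : Set V) with hS
  have hmemS : ∀ v, v ∈ S ↔ v ∉ T := by
    intro v
    simp [hS]
  have hne : Nonempty S := by
    have h1 : 0 < (Finset.univ \ T).card := by
      have := Finset.le_card_sdiff T (Finset.univ : Finset V)
      rw [Finset.card_univ] at this
      omega
    obtain ⟨v, hv⟩ := Finset.card_pos.1 h1
    exact ⟨⟨v, by simpa [hS] using hv⟩⟩
  by_contra hcon
  have hpre : ¬ (G.induce S).Preconnected := fun hp => hcon ⟨hp⟩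
  have hab : ∃ a b : S, ¬ (G.induce S).Reachable a b := by
    by_contra hc
    push Not at hc
    exact hpre hc
  obtain ⟨a, b, hab⟩ := hab
  have haT : (a : V) ∉ T := (hmemS _).1 a.2
  have hbT : (b : V) ∉ T := (hmemS _).1 b.2
  have hne_ab : (a : V) ≠ b := by
    intro e
    apply hab
    rw [Subtype.ext e]
  -- two further vertices
  have hsub : T ⊆ Finset.univ \ {(a : V), (b : V)} := by
    intro v hv
    rw [Finset.mem_sdiff]
    refine ⟨Finset.mem_univ _, ?_⟩
    intro hc
    rw [Finset.mem_insert, Finset.mem_singleton] at hc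
    rcases hc with rfl | rfl
    · exact haT hv
    · exact hbT hv
  have hcard2 : 2 ≤ (Finset.univ \ {(a : V), (b : V)} : Finset V).card := by
    have h1 := Finset.le_card_sdiff ({(a : V), (b : V)} : Finset V) (Finset.univ : Finset V)
    rw [Finset.card_univ, Finset.card_pair hne_ab] at h1
    omega
  obtain ⟨T', hTT', hT'sub, hT'card⟩ := Finset.exists_subsuperset_card_eq hsub hT hcard2
  obtain ⟨s, t, hst, rfl⟩ := Finset.card_eq_two.1 hT'card
  have hnotin : ∀ v ∈ ({s, t} : Finset V), v ≠ a ∧ v ≠ b := by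
    intro v hv
    have h1 := hT'sub hv
    rw [Finset.mem_sdiff, Finset.mem_insert, Finset.mem_singleton] at h1
    exact ⟨fun e => h1.2 (Or.inl e), fun e => h1.2 (Or.inr e)⟩
  obtain ⟨hsa, hsb⟩ := hnotin s (by simp)
  obtain ⟨hta, htb⟩ := hnotin t (by simp)
  obtain ⟨p, hp⟩ := exists_generic_real (V := V)
  have hncA := not_collinear p hp s t a hst hsa hta
  have hncB := not_collinear p hp s t b hst hsb htb
  have hd : p t 0 - p s 0 ≠ 0 := by
    have := generic_ne p hp (MvPolynomial.X (t, 0) - MvPolynomial.X (s, 0))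
      (fun x => if x = (t, 0) then 1 else 0) (by simp [hst])
    simpa using this
  set n0 : ℝ := -(p t 1 - p s 1) with hn0
  set n1 : ℝ := p t 0 - p s 0 with hn1
  have hn : n0 ^ 2 + n1 ^ 2 ≠ 0 := by
    have := sq_pos_of_ne_zero hd
    have := sq_nonneg n0
    have h3 : 0 < n0 ^ 2 + n1 ^ 2 := by positivity
    exact h3.ne'
  set B : Set V := {v | ∃ hv : v ∈ S, ¬ (G.induce S).Reachable a ⟨v, hv⟩} with hB
  let q : V → Fin 2 → ℝ := fun v => if v ∈ B then reflL (p s 0) (p s 1) n0 n1 (p v) else p v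
  have hqB : ∀ v, v ∈ B → q v = reflL (p s 0) (p s 1) n0 n1 (p v) := fun v hv => if_pos hv
  have hqA : ∀ v, v ∉ B → q v = p v := fun v hv => if_neg hv
  have hfixT : ∀ v ∈ T, reflL (p s 0) (p s 1) n0 n1 (p v) = p v := by
    intro v hv
    have h1 := hTT' hv
    rw [Finset.mem_insert, Finset.mem_singleton] at h1
    apply reflL_fix
    rcases h1 with rfl | rfl
    · ring
    · rw [hn0, hn1]; ring
  have key : ∀ u v, G.Adj u v → u ∈ B → v ∉ B → v ∈ T := by
    intro u v huv hu hv
    by_contra hvT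
    obtain ⟨huS, hur⟩ := hu
    have hvS : v ∈ S := (hmemS v).2 hvT
    apply hv
    refine ⟨hvS, fun hr => hur ?_⟩
    have hadj : (G.induce S).Adj ⟨v, hvS⟩ ⟨u, huS⟩ := huv.symm
    exact hr.trans hadj.reachable
  have hedge : ∀ u v, G.Adj u v → dsq (q u) (q v) = dsq (p u) (p v) := by
    intro u v huv
    by_cases hu : u ∈ B
    · by_cases hv : v ∈ B
      · rw [hqB u hu, hqB v hv, dsq_reflL hn]
      · have hvT := key u v huv hu hv
        rw [hqB u hu, hqA v hv]
        conv_lhs => rw [← hfixT v hvT]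
        rw [dsq_reflL hn]
    · by_cases hv : v ∈ B
      · have huT := key v u huv.symm hv hu
        rw [hqA u hu, hqB v hv]
        conv_lhs => rw [← hfixT u huT]
        rw [dsq_reflL hn]
      · rw [hqA u hu, hqA v hv]
  have haB : (a : V) ∉ B := by
    rintro ⟨hv, hr⟩
    exact hr (SimpleGraph.Reachable.refl _)
  have hbB : (b : V) ∈ B := ⟨b.2, hab⟩
  have hfin := h p hp q hedge a b
  rw [hqA _ haB, hqB _ hbB, dsq_reflL_right hn] at hfin
  have hz : 4 * ((p a 0 - p s 0) * n0 + (p a 1 - p s 1) * n1) *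
      ((p b 0 - p s 0) * n0 + (p b 1 - p s 1) * n1) / (n0 ^ 2 + n1 ^ 2) = 0 := by linarith
  rw [div_eq_zero_iff] at hz
  rcases hz with hz | hz
  · rw [mul_eq_zero, mul_eq_zero] at hz
    rcases hz with (hz | hz) | hz
    · norm_num at hz
    · apply hncA
      rw [hn0, hn1] at hz
      linarith
    · apply hncB
      rw [hn0, hn1] at hz
      linarith
  · exact hn hz

end Pool.Agent.Helper36.JJ
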